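import Pool.Agent.V8H40.PR.Tree
import Pool.Agent.N597.CT.Cnt2

set_option autoImplicit false

/-!
# The number of signatures
-/

namespace Pool.Agent.V8H40.PR

open Matrix Function Pool.Agent.N597.CT

variable {m n : ℕ}

/-- the data of a tableau -/
def toId (D : Tab m n) : Id3 m n → ℝ
  | .inl p => -D (some p.1) (some p.2)
  | .inr (.inl r) => -D (some r) none
  | .inr (.inr c) => D none (some c)

/-- variables -/
def embV : Va m n → Vr m n
  | .inl r => .inl r
  | .inr c => .inr (some c)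

/-- columns -/
def emb : Kol (Va m n) → Kol (Vr m n)
  | none => none
  | some none => some none
  | some (some v) => some (some (embV v))

lemma wT_eq (D : Tab m n) (h0 : D none none = 0) (i : Option (Fin m)) (y : Kol (Va m n)) :
    wT D i y = wL (toId D) i (emb y) := by
  rcases i with _ | i <;> rcases y with _ | _ | r | c <;> simp [wT, wL, emb, embV, toId, h0]

lemma dd_eq (D : Tab m n) (h0 : D none none = 0) (β : Option (Fin m) → Kol (Va m n)) :
    dd (wT D) β = dd (wL (toId D)) (emb ∘ β) := by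
  unfold dd
  congr 1
  ext i j
  exact wT_eq D h0 i (β j)

lemma ext_emb (β : Fin m → Va m n) : emb ∘ ext β = ext (embV ∘ β) := by
  ext1 j
  rcases j with _ | j <;> rfl

/-- restriction of signatures -/
def rst (P : (Fin m → Vr m n) → Option (Fin m) → Kol (Vr m n) → SignType) :
    (Fin m → Va m n) → Option (Fin m) → Kol (Va m n) → SignType :=
  fun β i y => P (embV ∘ β) i (emb y)

lemma chiT_eq (D : Tab m n) (h0 : D none none = 0) : chiT D = rst (chi m n (toId D)) := by
  ext1 β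
  ext1 i
  ext1 y
  show SignType.sign (tb (wT D) (ext β) i y) =
    SignType.sign (tb (wL (toId D)) (ext (embV ∘ β)) i (emb y))
  unfold tb
  rw [dd_eq D h0, dd_eq D h0, comp_update, ext_emb]

theorem count0 (hmn : 2 ≤ m + n) :
    (chiT '' {D : Tab m n | D none none = 0}).ncard ≤ 2 ^ min (pex m n) (pex2 m n) := by
  classical
  have hsub : chiT '' {D : Tab m n | D none none = 0} ⊆ rst '' Set.range (chi m n) := by
    rintro _ ⟨D, hD, rfl⟩
    exact ⟨chi m n (toId D), ⟨toId D, rfl⟩, (chiT_eq D hD).symm⟩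
  refine (Set.ncard_le_ncard hsub (Set.toFinite _)).trans
    ((Set.ncard_image_le (Set.toFinite _)).trans ?_)
  rcases le_total (pex m n) (pex2 m n) with h | h
  · rw [min_eq_left h]
    exact ncard_chi_le m n
  · rw [min_eq_right h]
    exact ncard_chi_le2 m n hmn

/-- The number of pivots. -/
def Kp (m n : ℕ) : ℕ := 91 * (m * n) * (min m n) ^ 2 * Nat.log 2 (m + n)

lemma bound (hm : 1 ≤ m) (hn : 1 ≤ n) :
    (2 * min (pex m n) (pex2 m n) + 1) * min m n ≤ Kp m n := by
  obtain ⟨L, hL⟩ : ∃ L, L = Nat.log 2 (m + n) := ⟨_, rfl⟩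
  have hL1 : 1 ≤ L := by
    rw [hL]
    exact Nat.log_pos (by norm_num) (by omega)
  obtain ⟨μ, hμ⟩ : ∃ μ, μ = min m n := ⟨_, rfl⟩
  have hμ1 : 1 ≤ μ := by rw [hμ]; exact le_min hm hn
  obtain ⟨N, hN⟩ : ∃ N, N = m * n := ⟨_, rfl⟩
  have hN1 : 1 ≤ N := by rw [hN]; exact Nat.mul_pos hm hn
  have h1 : min (m + 1) (n + 2) ≤ 3 * μ := by omega
  have h2 : m * n + m + n ≤ 3 * N := by
    have a1 : m ≤ m * n := Nat.le_mul_of_pos_right m hn
    have a2 : n ≤ m * n := Nat.le_mul_of_pos_left n hm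
    omega
  have h3 : pex2 m n ≤ 45 * (N * μ * L) := by
    unfold pex2
    rw [← hL]
    have a1 : min (m + 1) (n + 2) * (L + 3) + 3 ≤ 15 * (μ * L) := by
      have b1 : min (m + 1) (n + 2) * (L + 3) ≤ (3 * μ) * (4 * L) :=
        Nat.mul_le_mul h1 (by omega)
      have b2 : 1 ≤ μ * L := Nat.mul_pos hμ1 hL1
      have b3 : (3 * μ) * (4 * L) = 12 * (μ * L) := by ring
      omega
    calc (min (m + 1) (n + 2) * (L + 3) + 3) * (m * n + m + n) ≤ (15 * (μ * L)) * (3 * N) :=
          Nat.mul_le_mul a1 h2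
      _ = _ := by ring
  have h4 : 2 * min (pex m n) (pex2 m n) + 1 ≤ 91 * (N * μ * L) := by
    have b1 : 1 ≤ N * μ * L := Nat.mul_pos (Nat.mul_pos hN1 hμ1) hL1
    have b2 := min_le_right (pex m n) (pex2 m n)
    omega
  unfold Kp
  rw [← hμ, ← hL, ← hN]
  calc (2 * min (pex m n) (pex2 m n) + 1) * μ ≤ (91 * (N * μ * L)) * μ :=
        Nat.mul_le_mul_right _ h4
    _ = _ := by ring

end Pool.Agent.V8H40.PR
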