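import Pool.Agent.V8H40.PR.Defs

set_option autoImplicit false

/-!
# What terminal tableaux say about the linear program of the first tableau
-/

namespace Pool.Agent.V8H40.PR

variable {m n : ℕ}

/-- The value of the row `i` of the tableau at a vector of slacks and variables. -/
noncomputable def rowv (D : Tab m n) (i : Option (Fin m)) (z : Fin m ⊕ Fin n → ℝ) : ℝ :=
  ∑ j, D i (some j) * z (.inr j)

/-- The solutions of the system of the tableau. -/
def Sys (D : Tab m n) (z : Fin m ⊕ Fin n → ℝ) : Prop :=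
  ∀ i, z (.inl i) + rowv D (some i) z = D (some i) none

/-- Exchange of two variables. -/
def ex (p : Fin m) (q : Fin n) (z : Fin m ⊕ Fin n → ℝ) : Fin m ⊕ Fin n → ℝ :=
  fun v => z (Equiv.swap (.inl p) (.inr q) v)

lemma ex_ex (p : Fin m) (q : Fin n) (z : Fin m ⊕ Fin n → ℝ) : ex p q (ex p q z) = z := by
  funext v
  simp [ex]

lemma ex_inr (p : Fin m) (q : Fin n) (z : Fin m ⊕ Fin n → ℝ) (j : Fin n) :
    ex p q z (.inr j) = if j = q then z (.inl p) else z (.inr j) := by
  unfold ex
  by_cases h : j = q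
  · subst h
    simp
  · rw [if_neg h, Equiv.swap_apply_of_ne_of_ne (by simp) (by simpa using h)]

lemma ex_inl (p : Fin m) (q : Fin n) (z : Fin m ⊕ Fin n → ℝ) (i : Fin m) :
    ex p q z (.inl i) = if i = p then z (.inr q) else z (.inl i) := by
  unfold ex
  by_cases h : i = p
  · subst h
    simp
  · rw [if_neg h, Equiv.swap_apply_of_ne_of_ne (by simpa using h) (by simp)]

lemma rowv_pivot_ne (D : Tab m n) (p : Fin m) (q : Fin n) (h : D (some p) (some q) ≠ 0)
    (i : Option (Fin m)) (hi : i ≠ some p) (z : Fin m ⊕ Fin n → ℝ) :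
    rowv (pivot p q D) i (ex p q z) = rowv D i z -
      D i (some q) / D (some p) (some q) * (z (.inl p) + rowv D (some p) z) := by
  have e : ∀ j, pivot p q D i (some j) * ex p q z (.inr j) = (D i (some j) -
      D i (some q) / D (some p) (some q) * D (some p) (some j)) * z (.inr j) +
      if j = q then -(D i (some q) / D (some p) (some q)) * z (.inl p) else 0 := by
    intro j
    rw [ex_inr]
    unfold pivot
    rw [if_neg hi]
    by_cases hj : j = q
    · subst hj
      rw [if_pos rfl, if_pos rfl, if_pos rfl]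
      field_simp
      ring
    · rw [if_neg (by simpa using hj), if_neg hj, if_neg hj]
      ring
  unfold rowv
  rw [Finset.sum_congr rfl fun j _ => e j, Finset.sum_add_distrib, Finset.sum_ite_eq' Finset.univ q,
    if_pos (Finset.mem_univ q)]
  simp only [sub_mul]
  rw [Finset.sum_sub_distrib]
  have : ∑ j, D i (some q) / D (some p) (some q) * D (some p) (some j) * z (.inr j) =
      D i (some q) / D (some p) (some q) * ∑ j, D (some p) (some j) * z (.inr j) := by
    rw [Finset.mul_sum]
    exact Finset.sum_congr rfl fun j _ => by ring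
  rw [this]
  ring

lemma rowv_pivot_self (D : Tab m n) (p : Fin m) (q : Fin n) (h : D (some p) (some q) ≠ 0)
    (z : Fin m ⊕ Fin n → ℝ) :
    rowv (pivot p q D) (some p) (ex p q z) =
      (z (.inl p) + rowv D (some p) z) / D (some p) (some q) - z (.inr q) := by
  have e : ∀ j, pivot p q D (some p) (some j) * ex p q z (.inr j) =
      D (some p) (some j) * z (.inr j) / D (some p) (some q) +
      if j = q then z (.inl p) / D (some p) (some q) - z (.inr q) else 0 := by
    intro j
    rw [ex_inr]
    unfold pivot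
    rw [if_pos rfl]
    by_cases hj : j = q
    · subst hj
      rw [if_pos rfl, if_pos rfl, if_pos rfl]
      field_simp
      ring
    · rw [if_neg (by simpa using hj), if_neg hj, if_neg hj]
      ring
  unfold rowv
  rw [Finset.sum_congr rfl fun j _ => e j, Finset.sum_add_distrib, Finset.sum_ite_eq' Finset.univ q,
    if_pos (Finset.mem_univ q), ← Finset.sum_div]
  ring

lemma sys_pivot {D : Tab m n} {p : Fin m} {q : Fin n} (h : D (some p) (some q) ≠ 0)
    {z : Fin m ⊕ Fin n → ℝ} (hz : Sys D z) : Sys (pivot p q D) (ex p q z) := by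
  intro i
  by_cases hi : i = p
  · subst hi
    rw [ex_inl, if_pos rfl, rowv_pivot_self D i q h, hz i]
    unfold pivot
    rw [if_pos rfl, if_neg (by simp)]
    ring
  · rw [ex_inl, if_neg hi, rowv_pivot_ne D p q h (some i) (by simpa using hi), hz p]
    unfold pivot
    rw [if_neg (by simpa using hi), if_neg (by simp)]
    have := hz i
    linear_combination this

lemma sys_pivot' {D : Tab m n} {p : Fin m} {q : Fin n} (h : D (some p) (some q) ≠ 0)
    {z : Fin m ⊕ Fin n → ℝ} (hz : Sys (pivot p q D) (ex p q z)) : Sys D z := by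
  have hp : z (.inl p) + rowv D (some p) z = D (some p) none := by
    have := hz p
    rw [ex_inl, if_pos rfl, rowv_pivot_self D p q h] at this
    unfold pivot at this
    rw [if_pos rfl, if_neg (by simp)] at this
    have h2 : (z (.inl p) + rowv D (some p) z) / D (some p) (some q) =
        D (some p) none / D (some p) (some q) := by linarith
    field_simp at h2
    exact h2
  intro i
  by_cases hi : i = p
  · subst hi
    exact hp
  · have := hz i
    rw [ex_inl, if_neg hi, rowv_pivot_ne D p q h (some i) (by simpa using hi), hp] at this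
    unfold pivot at this
    rw [if_neg (by simpa using hi), if_neg (by simp)] at this
    linear_combination this

/-- The objective function. -/
noncomputable def obj (D : Tab m n) (z : Fin m ⊕ Fin n → ℝ) : ℝ := D none none - rowv D none z

lemma obj_pivot {D : Tab m n} {p : Fin m} {q : Fin n} (h : D (some p) (some q) ≠ 0)
    {z : Fin m ⊕ Fin n → ℝ} (hz : Sys D z) : obj (pivot p q D) (ex p q z) = obj D z := by
  unfold obj
  rw [rowv_pivot_ne D p q h none (by simp), hz p]
  unfold pivot
  rw [if_neg (by simp), if_neg (by simp)]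
  ring

/-- Two tableaux have the same linear program up to the names of the variables. -/
def Same (D D' : Tab m n) : Prop := ∃ σ : Equiv.Perm (Fin m ⊕ Fin n),
  (∀ z, Sys D z ↔ Sys D' (z ∘ σ)) ∧ ∀ z, Sys D z → obj D' (z ∘ σ) = obj D z

lemma Same.refl (D : Tab m n) : Same D D :=
  ⟨Equiv.refl _, fun _ => Iff.rfl, fun _ _ => rfl⟩

lemma Same.pivot {D D' : Tab m n} (h : Same D D') {p : Fin m} {q : Fin n}
    (hpq : D' (some p) (some q) ≠ 0) : Same D (pivot p q D') := by
  obtain ⟨σ, h1, h2⟩ := h
  have e : ∀ z : Fin m ⊕ Fin n → ℝ, z ∘ ((Equiv.swap (.inl p) (.inr q)).trans σ) =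
      ex p q (z ∘ σ) := fun z => rfl
  refine ⟨(Equiv.swap (.inl p) (.inr q)).trans σ, fun z => ?_, fun z hz => ?_⟩
  · rw [e, h1 z]
    exact ⟨fun h => sys_pivot hpq h, fun h => sys_pivot' hpq h⟩
  · rw [e, obj_pivot hpq ((h1 z).1 hz), h2 z hz]

lemma Run.same {f : Rule m n} {E : ℕ → Tab m n} {k : ℕ} (h : Run f E k) :
    ∀ t ≤ k, Same (E 0) (E t) := by
  intro t
  induction t with
  | zero => exact fun _ => Same.refl _
  | succ t ih =>
    intro ht
    obtain ⟨p, q, -, h2, h3⟩ := h.1 t (by omega)
    rw [h3]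
    exact (ih (by omega)).pivot h2

/-- What a terminal tableau `D'` says about the linear program of `D`. -/
def Correct (D D' : Tab m n) : Prop :=
  (Opt (signs D') ∧ ∃ y ∈ Feas D, ∀ y' ∈ Feas D, val D y' ≤ val D y) ∨
  (Inf (signs D') ∧ Feas D = ∅) ∨
  (Unb (signs D') ∧ ∀ y ∈ Feas D, ∀ M : ℝ, ∃ y' ∈ Feas D, M < val D y')

/-- The vector of slacks and variables of a point. -/
noncomputable def up (D : Tab m n) (y : Fin n → ℝ) : Fin m ⊕ Fin n → ℝ
  | .inl i => D (some i) none - ∑ j, D (some i) (some j) * y j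
  | .inr j => y j

lemma up_sys (D : Tab m n) (y : Fin n → ℝ) : Sys D (up D y) := by
  intro i
  simp [rowv, up]

lemma up_nonneg {D : Tab m n} {y : Fin n → ℝ} (hy : y ∈ Feas D) : ∀ v, 0 ≤ up D y v := by
  rintro (i | j)
  · have := hy.2 i
    simp only [up]
    linarith
  · exact hy.1 j

lemma up_obj (D : Tab m n) (y : Fin n → ℝ) : obj D (up D y) = val D y := by
  simp [obj, rowv, up, val]

/-- Back to points. -/
lemma down_feas {D : Tab m n} {z : Fin m ⊕ Fin n → ℝ} (h : Sys D z) (hz : ∀ v, 0 ≤ z v) :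
    (fun j => z (.inr j)) ∈ Feas D := by
  refine ⟨fun j => hz _, fun i => ?_⟩
  have h1 := h i
  have h2 := hz (.inl i)
  simp only [rowv] at h1
  linarith

lemma down_val {D : Tab m n} (z : Fin m ⊕ Fin n → ℝ) : val D (fun j => z (.inr j)) = obj D z := rfl

lemma sign_ne_neg {x : ℝ} (h : SignType.sign x ≠ -1) : 0 ≤ x := by
  by_contra hc
  exact h (sign_neg (lt_of_not_ge hc))

lemma sign_ne_pos {x : ℝ} (h : SignType.sign x ≠ 1) : x ≤ 0 := by
  by_contra hc
  exact h (sign_pos (lt_of_not_ge hc))

lemma sign_neg' {x : ℝ} (h : SignType.sign x = -1) : x < 0 := by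
  rwa [sign_eq_neg_one_iff] at h

theorem correct {D D' : Tab m n} (h : Same D D') (ht : Terminal (signs D')) : Correct D D' := by
  obtain ⟨σ, h1, h2⟩ := h
  have tr : ∀ w : Fin m ⊕ Fin n → ℝ, Sys D' w → (∀ v, 0 ≤ w v) →
      ∃ y ∈ Feas D, val D y = obj D' w := by
    intro w hw hn
    have e : (w ∘ σ.symm) ∘ σ = w := by
      funext v
      simp
    have hs : Sys D (w ∘ σ.symm) := by
      rw [h1, e]
      exact hw
    refine ⟨fun j => (w ∘ σ.symm) (.inr j), down_feas hs fun v => hn _, ?_⟩
    rw [down_val, ← h2 _ hs, e]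
  rcases ht with ho | hi | hu
  · refine Or.inl ⟨ho, ?_⟩
    obtain ⟨a, b⟩ := ho
    have a' : ∀ i, 0 ≤ D' (some i) none := fun i => sign_ne_neg (a i)
    have b' : ∀ j, 0 ≤ D' none (some j) := fun j => sign_ne_neg (b j)
    obtain ⟨y, hy, hv⟩ := tr (Sum.elim (fun i => D' (some i) none) fun _ => 0)
      (fun i => by simp [rowv]) (by
        rintro (i | j)
        · exact a' i
        · exact le_rfl)
    refine ⟨y, hy, fun y' hy' => ?_⟩
    rw [hv, ← up_obj D y', ← h2 _ (up_sys D y')]
    have hs := (h1 _).1 (up_sys D y')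
    unfold obj rowv
    have : 0 ≤ ∑ j, D' none (some j) * (up D y' ∘ σ) (.inr j) :=
      Finset.sum_nonneg fun j _ => mul_nonneg (b' j) (up_nonneg hy' _)
    simp only [Sum.elim_inr, mul_zero, Finset.sum_const_zero, sub_zero]
    linarith
  · refine Or.inr (Or.inl ⟨hi, ?_⟩)
    obtain ⟨i, a, b⟩ := hi
    rw [Set.eq_empty_iff_forall_notMem]
    intro y hy
    have hs := (h1 _).1 (up_sys D y) i
    have h3 : D' (some i) none < 0 := sign_neg' a
    have h4 : 0 ≤ rowv D' (some i) (up D y ∘ σ) :=
      Finset.sum_nonneg fun j _ => mul_nonneg (sign_ne_neg (b j)) (up_nonneg hy _)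
    have h5 : 0 ≤ (up D y ∘ σ) (.inl i) := up_nonneg hy _
    linarith
  · refine Or.inr (Or.inr ⟨hu, ?_⟩)
    obtain ⟨j, a, b⟩ := hu
    intro y hy M
    have h3 : D' none (some j) < 0 := sign_neg' a
    have h4 : ∀ i, D' (some i) (some j) ≤ 0 := fun i => sign_ne_pos (b i)
    have hs := (h1 _).1 (up_sys D y)
    obtain ⟨w, hw⟩ : ∃ w, w = up D y ∘ σ := ⟨_, rfl⟩
    have hwn : ∀ v, 0 ≤ w v := fun v => by rw [hw]; exact up_nonneg hy _
    rw [← hw] at hs
    obtain ⟨s, hs0, hs1⟩ : ∃ s : ℝ, 0 ≤ s ∧ M < obj D' w - s * D' none (some j) := by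
      refine ⟨(|M - obj D' w| + 1) / (-D' none (some j)), ?_, ?_⟩
      · exact div_nonneg (by positivity) (by linarith)
      · have e : (|M - obj D' w| + 1) / (-D' none (some j)) * D' none (some j) =
            -(|M - obj D' w| + 1) := by
          have : D' none (some j) ≠ 0 := h3.ne
          field_simp
        rw [e]
        have := le_abs_self (M - obj D' w)
        linarith
    obtain ⟨y', hy', hv⟩ := tr (Sum.elim (fun i => w (.inl i) - s * D' (some i) (some j))
      fun c => w (.inr c) + if c = j then s else 0) (fun i => by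
        have e : rowv D' (some i) (Sum.elim (fun i => w (.inl i) - s * D' (some i) (some j))
            fun c => w (.inr c) + if c = j then s else 0) = rowv D' (some i) w +
            s * D' (some i) (some j) := by
          simp only [rowv, Sum.elim_inr, mul_add, Finset.sum_add_distrib, mul_ite, mul_zero]
          rw [Finset.sum_ite_eq' Finset.univ j, if_pos (Finset.mem_univ j)]
          ring
        rw [e, Sum.elim_inl]
        have := hs i
        linarith) (by
        rintro (i | c)
        · have := mul_nonneg hs0 (neg_nonneg.2 (h4 i))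
          have := hwn (.inl i)
          simp only [Sum.elim_inl]
          linarith
        · have := hwn (.inr c)
          simp only [Sum.elim_inr]
          split_ifs <;> linarith)
    refine ⟨y', hy', ?_⟩
    rw [hv]
    have e : obj D' (Sum.elim (fun i => w (.inl i) - s * D' (some i) (some j))
        fun c => w (.inr c) + if c = j then s else 0) = obj D' w - s * D' none (some j) := by
      simp only [obj, rowv, Sum.elim_inr, mul_add, Finset.sum_add_distrib, mul_ite, mul_zero]
      rw [Finset.sum_ite_eq' Finset.univ j, if_pos (Finset.mem_univ j)]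
      ring
    rw [e]
    exact hs1

/-- The tableau of the problem whether some `x` satisfies `A x ≥ b`; `x c = y c - y n`. -/
noncomputable def ini (A : Matrix (Fin m) (Fin n) ℝ) (b : Fin m → ℝ) : Tab m (n + 1)
  | none, _ => 0
  | some i, none => -b i
  | some i, some c => Fin.snoc (α := fun _ => ℝ) (fun c => -A i c) (∑ c, A i c) c

lemma ini_row (A : Matrix (Fin m) (Fin n) ℝ) (b : Fin m → ℝ) (i : Fin m) (y : Fin (n + 1) → ℝ) :
    ∑ j, ini A b (some i) (some j) * y j =
      -∑ c, A i c * (y c.castSucc - y (Fin.last n)) := by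
  rw [Fin.sum_univ_castSucc]
  simp only [ini, Fin.snoc_castSucc, Fin.snoc_last]
  rw [Finset.sum_mul, ← Finset.sum_add_distrib, ← Finset.sum_neg_distrib]
  exact Finset.sum_congr rfl fun c _ => by ring

lemma ini_feas (A : Matrix (Fin m) (Fin n) ℝ) (b : Fin m → ℝ) :
    (Feas (ini A b)).Nonempty ↔ ∃ x, ∀ i, b i ≤ (A.mulVec x) i := by
  constructor
  · rintro ⟨y, -, hy⟩
    refine ⟨fun c => y c.castSucc - y (Fin.last n), fun i => ?_⟩
    have := hy i
    rw [ini_row] at this
    have e : ini A b (some i) none = -b i := rfl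
    rw [e] at this
    show b i ≤ ∑ c, A i c * (y c.castSucc - y (Fin.last n))
    linarith
  · rintro ⟨x, hx⟩
    refine ⟨Fin.snoc (α := fun _ => ℝ) (fun c => x c + ∑ c, |x c|) (∑ c, |x c|), fun j => ?_,
      fun i => ?_⟩
    · have h0 : 0 ≤ ∑ c, |x c| := Finset.sum_nonneg fun c _ => abs_nonneg _
      refine Fin.lastCases ?_ (fun c => ?_) j
      · rw [Fin.snoc_last]
        exact h0
      · rw [Fin.snoc_castSucc]
        have h1 : |x c| ≤ ∑ c, |x c| :=
          Finset.single_le_sum (f := fun c => |x c|) (fun c _ => abs_nonneg _) (Finset.mem_univ c)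
        have h2 := neg_abs_le (x c)
        linarith
    · rw [ini_row]
      have e : ini A b (some i) none = -b i := rfl
      rw [e]
      have h1 : b i ≤ ∑ c, A i c * x c := hx i
      have h2 : ∑ c, A i c * (Fin.snoc (α := fun _ => ℝ) (fun c => x c + ∑ c, |x c|)
          (∑ c, |x c|) (Fin.castSucc c) - Fin.snoc (α := fun _ => ℝ) (fun c => x c + ∑ c, |x c|)
          (∑ c, |x c|) (Fin.last n)) = ∑ c, A i c * x c := by
        refine Finset.sum_congr rfl fun c _ => ?_
        rw [Fin.snoc_castSucc, Fin.snoc_last]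
        ring
      rw [h2]
      linarith

lemma ini_val (A : Matrix (Fin m) (Fin n) ℝ) (b : Fin m → ℝ) (y : Fin (n + 1) → ℝ) :
    val (ini A b) y = 0 := by
  simp [val, ini]

theorem ini_correct {A : Matrix (Fin m) (Fin n) ℝ} {b : Fin m → ℝ} {D' : Tab m (n + 1)}
    (h : Correct (ini A b) D') :
    (Opt (signs D') ∧ ∃ x, ∀ i, b i ≤ (A.mulVec x) i) ∨
    (Inf (signs D') ∧ ¬ ∃ x, ∀ i, b i ≤ (A.mulVec x) i) ∨
    (Unb (signs D') ∧ ¬ ∃ x, ∀ i, b i ≤ (A.mulVec x) i) := by
  rcases h with ⟨h1, y, hy, -⟩ | ⟨h1, h2⟩ | ⟨h1, h2⟩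
  · exact Or.inl ⟨h1, (ini_feas A b).1 ⟨y, hy⟩⟩
  · refine Or.inr (Or.inl ⟨h1, fun hx => ?_⟩)
    obtain ⟨y, hy⟩ := (ini_feas A b).2 hx
    rw [h2] at hy
    exact hy
  · refine Or.inr (Or.inr ⟨h1, fun hx => ?_⟩)
    obtain ⟨y, hy⟩ := (ini_feas A b).2 hx
    obtain ⟨y', -, hy'⟩ := h2 y hy 0
    rw [ini_val] at hy'
    exact lt_irrefl _ hy'

end Pool.Agent.V8H40.PR
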