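import Pool.Agent.V8H40.PR.Defs
import Pool.Agent.N597.CT.Crit

set_option autoImplicit false

/-!
# Condensed tableaux and minors
-/

namespace Pool.Agent.V8H40.PR

open Matrix Function Pool.Agent.N597.CT

variable {m n : ℕ}

/-- The variables. -/
abbrev Va (m n : ℕ) := Fin m ⊕ Fin n

/-- The matrix of the system of a tableau. -/
def wT (D : Tab m n) : Matrix (Option (Fin m)) (Kol (Va m n)) ℝ := fun i y =>
  match y with
  | none => D i none
  | some none => if i = none then 1 else 0
  | some (some (.inl r)) => if i = some r then 1 else 0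
  | some (some (.inr c)) => D i (some c)

/-- The column of the system belonging to a column of the condensed tableau. -/
def kol (ν : Fin n → Va m n) : Option (Fin n) → Kol (Va m n)
  | none => none
  | some j => some (some (ν j))

/-- The condensed tableau. -/
noncomputable def cond (D : Tab m n) (β : Fin m → Va m n) (ν : Fin n → Va m n) : Tab m n :=
  fun i j => tb (wT D) (ext β) i (kol ν j)

/-- Complementary sets of basic and nonbasic variables. -/
def Comp (β : Fin m → Va m n) (ν : Fin n → Va m n) : Prop := Bijective (Sum.elim β ν)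

lemma Comp.inj {β : Fin m → Va m n} {ν : Fin n → Va m n} (h : Comp β ν) : Injective β :=
  fun a b hab => by
    have := h.1 (a₁ := Sum.inl a) (a₂ := Sum.inl b) hab
    simpa using this

lemma Comp.injν {β : Fin m → Va m n} {ν : Fin n → Va m n} (h : Comp β ν) : Injective ν :=
  fun a b hab => by
    have := h.1 (a₁ := Sum.inr a) (a₂ := Sum.inr b) hab
    simpa using this

lemma Comp.ne {β : Fin m → Va m n} {ν : Fin n → Va m n} (h : Comp β ν) (i : Fin m) (j : Fin n) :
    β i ≠ ν j := fun hab => by
  have := h.1 (a₁ := Sum.inl i) (a₂ := Sum.inr j) hab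
  simp at this

lemma Comp.cov {β : Fin m → Va m n} {ν : Fin n → Va m n} (h : Comp β ν) (v : Va m n) :
    (∃ i, β i = v) ∨ ∃ j, ν j = v := by
  obtain ⟨a, ha⟩ := h.2 v
  rcases a with i | j
  · exact Or.inl ⟨i, ha⟩
  · exact Or.inr ⟨j, ha⟩

lemma comp_base : Comp (m := m) (n := n) Sum.inl Sum.inr := by
  have : Sum.elim (Sum.inl : Fin m → Va m n) (Sum.inr : Fin n → Va m n) = id := Sum.elim_inl_inr
  unfold Comp
  rw [this]
  exact bijective_id

lemma Comp.swap {β : Fin m → Va m n} {ν : Fin n → Va m n} (h : Comp β ν) (p : Fin m)
    (q : Fin n) : Comp (update β p (ν q)) (update ν q (β p)) := by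
  have e : Sum.elim (update β p (ν q)) (update ν q (β p)) =
      Sum.elim β ν ∘ Equiv.swap (Sum.inl p) (Sum.inr q) := by
    ext1 a
    rcases a with i | j
    · by_cases hi : i = p
      · rw [hi]
        simp
      · simp only [Sum.elim_inl, Function.comp_apply]
        rw [update_of_ne hi, Equiv.swap_apply_of_ne_of_ne (by simpa using hi) (by simp)]
        rfl
    · by_cases hj : j = q
      · rw [hj]
        simp
      · simp only [Sum.elim_inr, Function.comp_apply]
        rw [update_of_ne hj, Equiv.swap_apply_of_ne_of_ne (by simp) (by simpa using hj)]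
        rfl
  unfold Comp
  rw [e]
  exact h.comp (Equiv.bijective _)

lemma wT_base (D : Tab m n) (i j : Option (Fin m)) :
    wT D i (ext (Sum.inl : Fin m → Va m n) j) = if i = j then 1 else 0 := by
  rcases i with _ | i <;> rcases j with _ | j <;> simp [wT, Pool.Agent.N597.CT.ext]

lemma dd_base (D : Tab m n) : dd (wT D) (ext (Sum.inl : Fin m → Va m n)) = 1 := by
  unfold dd
  have : (Matrix.of fun i j => wT D i (ext (Sum.inl : Fin m → Va m n) j)) =
      (1 : Matrix _ _ ℝ) := by
    ext i j
    rw [of_apply, wT_base, Matrix.one_apply]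
  rw [this, det_one]

lemma cond_base (D : Tab m n) : cond D Sum.inl Sum.inr = D := by
  ext i j
  have h := tb_exp (wT D) (ext (Sum.inl : Fin m → Va m n))
    (by rw [dd_base]; exact one_ne_zero) i (kol Sum.inr j)
  have h2 : wT D i (kol Sum.inr j) = tb (wT D) (ext (Sum.inl : Fin m → Va m n)) i
      (kol Sum.inr j) := by
    rw [h]
    simp [wT_base]
  unfold cond
  rw [← h2]
  rcases j with _ | j <;> rfl

lemma kol_update (ν : Fin n → Va m n) (q : Fin n) (v : Va m n) (j : Option (Fin n))
    (hj : j ≠ some q) : kol (update ν q v) j = kol ν j := by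
  rcases j with _ | j
  · rfl
  · have : j ≠ q := fun h => hj (by rw [h])
    simp [kol, update_of_ne this]

/-- Pivots are changes of the basis. -/
lemma cond_pivot (D : Tab m n) {β : Fin m → Va m n} {ν : Fin n → Va m n}
    (hd : dd (wT D) (ext β) ≠ 0) (p : Fin m) (q : Fin n)
    (hne : cond D β ν (some p) (some q) ≠ 0) :
    cond D (update β p (ν q)) (update ν q (β p)) = pivot p q (cond D β ν) := by
  have hx : tb (wT D) (ext β) (some p) (some (some (ν q))) ≠ 0 := hne
  have hrow := fun y => pivot_row (wT D) (ext β) (some p) (some (some (ν q))) y hd hx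
  have hoth := fun i hi y => pivot_other (wT D) (ext β) (some p) i hi (some (some (ν q))) y hd hx
  have hself : ∀ i, tb (wT D) (ext β) i (some (some (β p))) = if i = some p then 1 else 0 :=
    fun i => tb_self (wT D) (ext β) hd i (some p)
  ext i j
  unfold cond pivot
  rw [ext_update]
  by_cases hi : i = some p
  · rw [if_pos hi, hi]
    by_cases hj : j = some q
    · rw [if_pos hj, hj]
      have e : kol (update ν q (β p)) (some q) = some (some (β p)) := by simp [kol]
      rw [e, hrow, hself, if_pos rfl, one_div]
      rfl
    · rw [if_neg hj, kol_update ν q _ j hj, hrow]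
      rfl
  · rw [if_neg hi]
    by_cases hj : j = some q
    · rw [if_pos hj, hj]
      have e : kol (update ν q (β p)) (some q) = some (some (β p)) := by simp [kol]
      rw [e, hoth i hi, hself, if_neg hi, hrow, hself, if_pos rfl]
      simp only [kol]
      ring
    · rw [if_neg hj, kol_update ν q _ j hj, hoth i hi, hrow]
      rfl

lemma dd_pivot (D : Tab m n) {β : Fin m → Va m n} {ν : Fin n → Va m n}
    (hd : dd (wT D) (ext β) ≠ 0) (p : Fin m) (q : Fin n)
    (hne : cond D β ν (some p) (some q) ≠ 0) :
    dd (wT D) (ext (update β p (ν q))) ≠ 0 := by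
  rw [ext_update]
  exact (tb_ne _ _ _ _ hd).1 hne

open Classical in
/-- The signs of the whole tableau from the signs of the condensed one. -/
noncomputable def full (β : Fin m → Va m n) (ν : Fin n → Va m n) (s : Sgn m n) :
    Option (Fin m) → Kol (Va m n) → SignType := fun i y =>
  match y with
  | none => s i none
  | some none => if i = none then 1 else 0
  | some (some v) => if h : ∃ j, ν j = v then s i (some h.choose) else
      if ∃ r, β r = v ∧ i = some r then 1 else 0

lemma star_full (D : Tab m n) {β : Fin m → Va m n} {ν : Fin n → Va m n} (hc : Comp β ν)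
    (hd : dd (wT D) (ext β) ≠ 0) : star (wT D) β = full β ν (signs (cond D β ν)) := by
  classical
  ext1 i
  ext1 y
  rcases y with _ | _ | v
  · rfl
  · have e : (some none : Kol (Va m n)) = ext β none := rfl
    show SignType.sign (tb (wT D) (ext β) i (some none)) = if i = none then 1 else 0
    rw [e, tb_self _ _ hd]
    split_ifs <;> simp
  · unfold full
    simp only
    split_ifs with h1 h2
    · have h3 := h1.choose_spec
      show SignType.sign (tb (wT D) (ext β) i (some (some v))) = _
      unfold signs cond kol
      simp only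
      rw [h3]
    · obtain ⟨r, hr, hi⟩ := h2
      show SignType.sign (tb (wT D) (ext β) i (some (some v))) = _
      have e : (some (some v) : Kol (Va m n)) = ext β (some r) := by rw [← hr]; rfl
      rw [e, tb_self _ _ hd, if_pos hi, sign_one]
    · rcases hc.cov v with ⟨r, hr⟩ | h
      · show SignType.sign (tb (wT D) (ext β) i (some (some v))) = _
        have e : (some (some v) : Kol (Va m n)) = ext β (some r) := by rw [← hr]; rfl
        rw [e, tb_self _ _ hd, if_neg fun hi => h2 ⟨r, hr, hi⟩, sign_zero]
      · exact absurd h h1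

/-- An unreachable basis is singular. -/
lemma singular_of' {V : Type*} (w : Matrix (Option (Fin m)) (Kol V) ℝ) (β γ : Fin m → V)
    (hγ : dd w (ext γ) ≠ 0) (j0 : Fin m) (hk : ∀ p, γ p ≠ β j0)
    (h : ∀ p, (∀ j, β j ≠ γ p) → tb w (ext γ) (some p) (some (some (β j0))) = 0) :
    dd w (ext β) = 0 := by
  by_contra hβ
  have h1 := tb_orth w (ext γ) (ext β) hγ (some j0) (some (some (β j0)))
  have e : (some (some (β j0)) : Kol V) = ext β (some j0) := rfl
  have h2 : tb w (ext β) (some j0) (some (some (β j0))) = 1 := by
    rw [e, tb_self w _ hβ, if_pos rfl]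
  rw [h2, Fintype.sum_option] at h1
  have e2 : ext γ none = ext β none := rfl
  rw [e2, tb_self w _ hβ, if_neg (by simp), mul_zero, zero_add] at h1
  have h3 : ∑ p, tb w (ext γ) (some p) (some (some (β j0))) *
      tb w (ext β) (some j0) (ext γ (some p)) = 0 := by
    refine Finset.sum_eq_zero fun p _ => ?_
    by_cases hp : ∀ j, β j ≠ γ p
    · rw [h p hp, zero_mul]
    · push Not at hp
      obtain ⟨j, hj⟩ := hp
      have e3 : ext γ (some p) = ext β (some j) := by
        show (some (some (γ p)) : Kol V) = some (some (β j))
        rw [hj]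
      rw [e3, tb_self w _ hβ, if_neg, mul_zero]
      intro h4
      rw [Option.some.injEq] at h4
      exact hk p (by rw [h4, hj])
  rw [h3] at h1
  exact one_ne_zero h1

end Pool.Agent.V8H40.PR
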