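import Mathlib

set_option autoImplicit false

/-!
# Pivot rules which see only the signs of the tableaux (helper40)

A tableau has `m` rows, `n` columns, a column `none` of right-hand sides and an objective row
`none`. It stands for the linear program
`max D none none - ∑ j, D none (some j) * y j` subject to `y ≥ 0` and
`∑ j, D (some i) (some j) * y j ≤ D (some i) none` for all `i`.
-/

namespace Pool.Agent.V8H40.PR

/-- Tableaux with `m` rows and `n` columns, an objective row and a column of right-hand sides. -/
abbrev Tab (m n : ℕ) : Type := Option (Fin m) → Option (Fin n) → ℝ

/-- Sign patterns of tableaux. -/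
abbrev Sgn (m n : ℕ) : Type := Option (Fin m) → Option (Fin n) → SignType

variable {m n : ℕ}

/-- The pivot in row `p` and column `q`: the basic variable of row `p` and the nonbasic variable of
column `q` are exchanged. -/
noncomputable def pivot (p : Fin m) (q : Fin n) (D : Tab m n) : Tab m n := fun i j =>
  if i = some p then
    if j = some q then (D (some p) (some q))⁻¹ else D (some p) j / D (some p) (some q)
  else
    if j = some q then -(D i (some q) / D (some p) (some q))
    else D i j - D i (some q) * (D (some p) j / D (some p) (some q))

/-- The signs of the entries of a tableau. -/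
noncomputable def signs (D : Tab m n) : Sgn m n := fun i j => SignType.sign (D i j)

/-- A pivot rule: from the list of the sign patterns of the tableaux seen so far (the first one
being the initial tableau) the row and the column of the next pivot, or `none` (stop). -/
abbrev Rule (m n : ℕ) : Type := List (Sgn m n) → Option (Fin m × Fin n)

/-- The signs show an optimal tableau. -/
def Opt (s : Sgn m n) : Prop := (∀ i, s (some i) none ≠ -1) ∧ ∀ j, s none (some j) ≠ -1

/-- A row of the tableau shows that the linear program is infeasible. -/
def Inf (s : Sgn m n) : Prop := ∃ i, s (some i) none = -1 ∧ ∀ j, s (some i) (some j) ≠ -1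

/-- A column of the tableau shows that the linear program is infeasible or unbounded. -/
def Unb (s : Sgn m n) : Prop := ∃ j, s none (some j) = -1 ∧ ∀ i, s (some i) (some j) ≠ 1

/-- Terminal sign patterns. -/
def Terminal (s : Sgn m n) : Prop := Opt s ∨ Inf s ∨ Unb s

/-- The rule `f`, started at the tableau `E 0`, makes exactly `k` pivots, none of them at a zero
entry, which lead through the tableaux `E 1`, ..., `E k`, and stops. -/
def Run (f : Rule m n) (E : ℕ → Tab m n) (k : ℕ) : Prop :=
  (∀ t < k, ∃ p q, f ((List.range (t + 1)).map fun s => signs (E s)) = some (p, q) ∧
    E t (some p) (some q) ≠ 0 ∧ E (t + 1) = pivot p q (E t)) ∧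
  f ((List.range (k + 1)).map fun s => signs (E s)) = none

/-- The points which satisfy the constraints of the linear program of the tableau. -/
def Feas (D : Tab m n) : Set (Fin n → ℝ) :=
  {y | (∀ j, 0 ≤ y j) ∧ ∀ i, ∑ j, D (some i) (some j) * y j ≤ D (some i) none}

/-- The objective function of the linear program of the tableau. -/
def val (D : Tab m n) (y : Fin n → ℝ) : ℝ := D none none - ∑ j, D none (some j) * y j

end Pool.Agent.V8H40.PR
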