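import Pool.Agent.V8H40.PR.Tree

set_option autoImplicit false

/-!
# From pivot trees to pivot rules
-/

namespace Pool.Agent.V8H40.PR

variable {m n : ℕ}

/-- The child of the root. -/
def child : PT m n → Sgn m n → PT m n
  | .stop, _ => .stop
  | .step _ _ nx, s => nx s

/-- The subtree after some sign patterns. -/
def fold (t : PT m n) (h : List (Sgn m n)) : PT m n := h.foldl child t

/-- The subtree after a history. -/
def follow (T : Sgn m n → PT m n) : List (Sgn m n) → PT m n
  | [] => .stop
  | s :: h => fold (T s) h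

/-- The pivot at the root of a tree. -/
def head : PT m n → Option (Fin m × Fin n)
  | .stop => none
  | .step p q _ => some (p, q)

lemma fold_append (t : PT m n) (l : List (Sgn m n)) (s : Sgn m n) :
    fold t (l ++ [s]) = child (fold t l) s := by
  simp [fold, List.foldl_append]

lemma follow_append (T : Sgn m n → PT m n) (l : List (Sgn m n)) (s : Sgn m n) (hl : l ≠ []) :
    follow T (l ++ [s]) = child (follow T l) s := by
  rcases l with _ | ⟨a, h⟩
  · exact absurd rfl hl
  · exact fold_append (T a) h s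

/-- One step. -/
noncomputable def nxt : PT m n × Tab m n → PT m n × Tab m n
  | (.stop, D) => (.stop, D)
  | (.step p q nx, D) => (nx (signs (pivot p q D)), pivot p q D)

lemma nxt_fst (x : PT m n × Tab m n) : (nxt x).1 = child x.1 (signs (nxt x).2) := by
  obtain ⟨t, D⟩ := x
  rcases t with _ | ⟨p, q, nx⟩ <;> rfl

lemma steps (c : ℕ) : ∀ (t : PT m n) (D : Tab m n), Good t D c → ∃ k ≤ c,
    (∀ i < k, ∃ p q nx, (nxt^[i] (t, D)).1 = .step p q nx ∧
      (nxt^[i] (t, D)).2 (some p) (some q) ≠ 0) ∧
    (nxt^[k] (t, D)).1 = .stop ∧ Terminal (signs (nxt^[k] (t, D)).2) := by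
  induction c with
  | zero =>
    intro t D h
    rcases t with _ | ⟨p, q, nx⟩
    · exact ⟨0, le_rfl, fun i hi => absurd hi (Nat.not_lt_zero i), rfl, h⟩
    · exact absurd h (by simp [Good])
  | succ c ih =>
    intro t D h
    rcases t with _ | ⟨p, q, nx⟩
    · exact ⟨0, Nat.zero_le _, fun i hi => absurd hi (Nat.not_lt_zero i), rfl, h⟩
    · obtain ⟨h1, h2⟩ := h
      obtain ⟨k, hk, a1, a2, a3⟩ := ih _ _ h2
      refine ⟨k + 1, by omega, fun i hi => ?_, a2, a3⟩
      rcases i with _ | i
      · exact ⟨p, q, nx, rfl, h1⟩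
      · exact a1 i (by omega)

/-- The rule of a tree solves what the tree solves. -/
theorem rule_of (T : Sgn m n → PT m n) : ∃ f : Rule m n, ∀ (D : Tab m n) (c : ℕ),
    Good (T (signs D)) D c → ∃ k ≤ c, ∃ E : ℕ → Tab m n, E 0 = D ∧ Run f E k ∧
      Terminal (signs (E k)) := by
  refine ⟨fun h => head (follow T h), fun D c hg => ?_⟩
  obtain ⟨k, hk, h1, h2, h3⟩ := steps c _ _ hg
  obtain ⟨S, hS⟩ : ∃ S : ℕ → PT m n × Tab m n, S = fun i => nxt^[i] (T (signs D), D) := ⟨_, rfl⟩
  have hSs : ∀ i, S (i + 1) = nxt (S i) := fun i => by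
    rw [hS]
    exact Function.iterate_succ_apply' nxt i _
  have hS0 : S 0 = (T (signs D), D) := by rw [hS]; rfl
  have key : ∀ i, follow T ((List.range (i + 1)).map fun s => signs (S s).2) = (S i).1 := by
    intro i
    induction i with
    | zero =>
      have : (List.range 1).map (fun s => signs (S s).2) = [signs (S 0).2] := by simp
      rw [this, hS0]
      rfl
    | succ i ih =>
      rw [List.range_succ, List.map_append, List.map_singleton, follow_append T _ _ (by simp), ih,
        hSs i]
      exact (nxt_fst (S i)).symm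
  refine ⟨k, hk, fun i => (S i).2, by show (S 0).2 = D; rw [hS0], ⟨fun t ht => ?_, ?_⟩, ?_⟩
  · obtain ⟨p, q, nx, a1, a2⟩ := h1 t ht
    have a1' : (S t).1 = .step p q nx := by rw [hS]; exact a1
    have a2' : (S t).2 (some p) (some q) ≠ 0 := by rw [hS]; exact a2
    refine ⟨p, q, ?_, a2', ?_⟩
    · show head (follow T _) = _
      rw [key t, a1']
      rfl
    · have hu : S t = (.step p q nx, (S t).2) := Prod.ext a1' rfl
      show (S (t + 1)).2 = pivot p q (S t).2
      rw [hSs t, hu]
      rfl
  · show head (follow T _) = _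
    have a2 : (S k).1 = .stop := by rw [hS]; exact h2
    rw [key k, a2]
    rfl
  · rw [hS]
    exact h3

end Pool.Agent.V8H40.PR
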