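import Pool.Agent.V8H40.PR.Core

set_option autoImplicit false

/-!
# Pivot trees and the halving argument
-/

namespace Pool.Agent.V8H40.PR

open Matrix Function Pool.Agent.N597.CT

variable {m n : ℕ}

/-- Pivot trees. -/
inductive PT (m n : ℕ) : Type
  | stop : PT m n
  | step (p : Fin m) (q : Fin n) (next : Sgn m n → PT m n) : PT m n

/-- The tree leads from the tableau to a terminal one with at most the given number of pivots. -/
def Good : PT m n → Tab m n → ℕ → Prop
  | .stop, D, _ => Terminal (signs D)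
  | .step _ _ _, _, 0 => False
  | .step p q next, D, c + 1 => D (some p) (some q) ≠ 0 ∧
      Good (next (signs (pivot p q D))) (pivot p q D) c

lemma Good.mono : ∀ (T : PT m n) (D : Tab m n) (c c' : ℕ), Good T D c → c ≤ c' → Good T D c'
  | .stop, _, _, _, h, _ => h
  | .step _ _ _, _, 0, _, h, _ => absurd h (by simp [Good])
  | .step _ _ _, _, _ + 1, 0, _, hc => absurd hc (by omega)
  | .step p q next, D, c + 1, c' + 1, h, hc =>
    ⟨h.1, Good.mono (next (signs (pivot p q D))) (pivot p q D) c c' h.2 (by omega)⟩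

/-- From the basis `β` all tableaux of `X` can be solved with `c` pivots. -/
def SolR (X : Set (Tab m n)) (β : Fin m → Va m n) (ν : Fin n → Va m n) (c : ℕ) : Prop :=
  ∃ T : Sgn m n → PT m n, ∀ D ∈ X, Good (T (signs (cond D β ν))) (cond D β ν) c

variable {X Y : Set (Tab m n)} {β : Fin m → Va m n} {ν : Fin n → Va m n} {c c' : ℕ}

lemma SolR.mono (h : SolR X β ν c) (hY : Y ⊆ X) (hc : c ≤ c') : SolR Y β ν c' := by
  obtain ⟨T, hT⟩ := h
  exact ⟨T, fun D hD => Good.mono _ _ _ _ (hT D (hY hD)) hc⟩

lemma SolR.split (h : ∀ s, SolR {D | D ∈ X ∧ signs (cond D β ν) = s} β ν c) : SolR X β ν c := by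
  choose T hT using h
  exact ⟨fun s => T s s, fun D hD => hT _ D ⟨hD, rfl⟩⟩

lemma SolR.piv (hd : ∀ D ∈ X, dd (wT D) (ext β) ≠ 0) (p : Fin m) (q : Fin n)
    (hne : ∀ D ∈ X, cond D β ν (some p) (some q) ≠ 0)
    (h : SolR X (update β p (ν q)) (update ν q (β p)) c) : SolR X β ν (c + 1) := by
  obtain ⟨T, hT⟩ := h
  refine ⟨fun _ => .step p q T, fun D hD => ⟨hne D hD, ?_⟩⟩
  have h1 := hT D hD
  rw [cond_pivot D (hd D hD) p q (hne D hD)] at h1
  exact h1

lemma SolR.halt (h : ∀ D ∈ X, Terminal (signs (cond D β ν))) : SolR X β ν c :=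
  ⟨fun _ => .stop, fun D hD => h D hD⟩

lemma SolR.empty (h : ∀ D, D ∉ X) : SolR X β ν c := SolR.halt fun D hD => absurd hD (h D)

/-- Going to a basis. -/
theorem goto (s : Fin m → Va m n) (hs : Injective s) (X0 : Set (Tab m n)) (c : ℕ)
    (K : ∀ (X : Set (Tab m n)) (β : Fin m → Va m n) (ν : Fin n → Va m n), X ⊆ X0 → Comp β ν →
      (∀ D ∈ X, dd (wT D) (ext β) ≠ 0) → (∃ π : Equiv.Perm (Fin m), s = β ∘ π) → SolR X β ν c)
    (K0 : ∀ (X : Set (Tab m n)) (β : Fin m → Va m n) (ν : Fin n → Va m n), X ⊆ X0 → Comp β ν →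
      (∀ D ∈ X, dd (wT D) (ext β) ≠ 0) → (∀ D ∈ X, dd (wT D) (ext s) = 0) → SolR X β ν c)
    (k : ℕ) : ∀ (X : Set (Tab m n)) (β : Fin m → Va m n) (ν : Fin n → Va m n), X ⊆ X0 →
      Comp β ν → (∀ D ∈ X, dd (wT D) (ext β) ≠ 0) →
      (Finset.univ.filter fun j : Fin m => ∀ i, β i ≠ s j).card ≤ k → SolR X β ν (c + k) := by
  classical
  induction k with
  | zero =>
    intro X β ν hX hc hd hk
    refine K X β ν hX hc hd ?_
    have hall : ∀ j, ∃ i, β i = s j := by
      intro j
      by_contra hcon
      push Not at hcon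
      have : j ∈ Finset.univ.filter fun j : Fin m => ∀ i, β i ≠ s j := by
        rw [Finset.mem_filter]
        exact ⟨Finset.mem_univ j, hcon⟩
      have h2 := Finset.card_pos.2 ⟨j, this⟩
      omega
    choose f hf using hall
    have hfinj : Injective f := by
      intro a b hab
      apply hs
      rw [← hf a, ← hf b, hab]
    refine ⟨Equiv.ofBijective f (Finite.injective_iff_bijective.1 hfinj), ?_⟩
    ext1 j
    exact (hf j).symm
  | succ k ih =>
    intro X β ν hX hc hd hk
    by_cases hJ : (Finset.univ.filter fun j : Fin m => ∀ i, β i ≠ s j).card ≤ k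
    · exact (ih X β ν hX hc hd hJ).mono subset_rfl (by omega)
    refine SolR.split fun σ => ?_
    by_cases hex : ∃ p q j, (∀ j', s j' ≠ β p) ∧ ν q = s j ∧ σ (some p) (some q) ≠ 0
    · obtain ⟨p, q, j, hp, hq, hσ⟩ := hex
      have hne : ∀ D ∈ {D | D ∈ X ∧ signs (cond D β ν) = σ},
          cond D β ν (some p) (some q) ≠ 0 := by
        rintro D ⟨-, hD⟩ h0
        apply hσ
        rw [← hD]
        unfold signs
        rw [h0, sign_zero]
      have h1 := ih {D | D ∈ X ∧ signs (cond D β ν) = σ} (update β p (ν q)) (update ν q (β p))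
        (fun D hD => hX hD.1) (hc.swap p q)
        (fun D hD => dd_pivot D (hd D hD.1) p q (hne D hD)) ?_
      · exact (SolR.piv (fun D hD => hd D hD.1) p q hne h1).mono subset_rfl (by omega)
      · have hsub : (Finset.univ.filter fun j : Fin m => ∀ i, update β p (ν q) i ≠ s j) ⊂
            (Finset.univ.filter fun j : Fin m => ∀ i, β i ≠ s j) := by
          rw [Finset.ssubset_iff_of_subset]
          · refine ⟨j, ?_, ?_⟩
            · rw [Finset.mem_filter]
              refine ⟨Finset.mem_univ j, fun i => ?_⟩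
              rw [← hq]
              exact hc.ne i q
            · rw [Finset.mem_filter]
              rintro ⟨-, h⟩
              exact h p (by rw [update_self, hq])
          · intro j' hj'
            rw [Finset.mem_filter] at hj' ⊢
            refine ⟨hj'.1, fun i hi => ?_⟩
            by_cases hip : i = p
            · rw [hip] at hi
              exact hp j' hi.symm
            · exact hj'.2 i (by rw [update_of_ne hip]; exact hi)
        have := Finset.card_lt_card hsub
        omega
    · push Not at hex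
      obtain ⟨j0, hj0⟩ : (Finset.univ.filter fun j : Fin m => ∀ i, β i ≠ s j).Nonempty := by
        rw [← Finset.card_pos]
        omega
      rw [Finset.mem_filter] at hj0
      obtain ⟨q0, hq0⟩ : ∃ q, ν q = s j0 := by
        rcases hc.cov (s j0) with ⟨i, hi⟩ | h
        · exact absurd hi (hj0.2 i)
        · exact h
      refine (K0 {D | D ∈ X ∧ signs (cond D β ν) = σ} β ν (fun D hD => hX hD.1) hc
        (fun D hD => hd D hD.1) ?_).mono subset_rfl (by omega)
      rintro D ⟨hD, hσ⟩
      refine singular_of' (wT D) s β (hd D hD) j0 hj0.2 fun p hp => ?_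
      have h1 := hex p q0 j0 hp hq0
      rw [← hσ] at h1
      unfold signs at h1
      rw [sign_eq_zero_iff] at h1
      have e : (some (some (s j0)) : Kol (Va m n)) = kol ν (some q0) := by rw [← hq0]; rfl
      rw [e]
      exact h1

lemma card_new {s : Fin m → Va m n} (hs : Injective s) (hc : Comp β ν) :
    (Finset.univ.filter fun j : Fin m => ∀ i, β i ≠ s j).card ≤ min m n := by
  classical
  refine le_min ((Finset.card_filter_le _ _).trans (by simp)) ?_
  have h1 : ∀ j : (Finset.univ.filter fun j : Fin m => ∀ i, β i ≠ s j), ∃ q, ν q = s j := by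
    rintro ⟨j, hj⟩
    rw [Finset.mem_filter] at hj
    rcases hc.cov (s j) with ⟨i, hi⟩ | h
    · exact absurd hi (hj.2 i)
    · exact h
  choose f hf using h1
  have hinj : Injective f := by
    intro a b hab
    apply Subtype.ext
    apply hs
    rw [← hf a, ← hf b, hab]
  have h2 := Fintype.card_le_of_injective f hinj
  rwa [Fintype.card_coe, Fintype.card_fin] at h2

/-- One round: the signs of the tableau of `s` are found. -/
theorem round (s : Fin m → Va m n) (hs : Injective s) (X : Set (Tab m n)) (β : Fin m → Va m n)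
    (ν : Fin n → Va m n) (hc : Comp β ν) (hd : ∀ D ∈ X, dd (wT D) (ext β) ≠ 0) (c : ℕ)
    (K : ∀ (ρ : Option (Fin m) → Kol (Va m n) → SignType) (X' : Set (Tab m n))
      (β' : Fin m → Va m n) (ν' : Fin n → Va m n), Comp β' ν' → X' ⊆ X →
      (∀ D ∈ X', dd (wT D) (ext β') ≠ 0) → (∀ D ∈ X', star (wT D) s = ρ) →
      (ρ none (some none) ≠ 0 → ∃ π : Equiv.Perm (Fin m), s = β' ∘ π) → SolR X' β' ν' c) :
    SolR X β ν (c + min m n) := by
  classical
  refine goto s hs X c ?_ ?_ (min m n) X β ν subset_rfl hc hd (card_new hs hc)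
  · rintro X' β' ν' hX' hc' hd' ⟨π, hπ⟩
    refine SolR.split fun σ => ?_
    refine K (fun i y => full β' ν' σ (Equiv.optionCongr π i) y) _ β' ν' hc'
      (fun D hD => hX' hD.1) (fun D hD => hd' D hD.1) ?_ fun _ => ⟨π, hπ⟩
    rintro D ⟨hD, hσ⟩
    have e : ext s = ext β' ∘ (Equiv.optionCongr π) := by
      ext1 j
      rcases j with _ | j
      · rfl
      · simp only [Function.comp_apply, Equiv.optionCongr_apply, Option.map_some]
        rw [hπ]
        rfl
    ext1 i
    ext1 y
    show SignType.sign (tb (wT D) (ext s) i y) = _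
    rw [e, tb_perm _ _ _ (hd' D hD)]
    have h1 := star_full D hc' (hd' D hD)
    rw [hσ] at h1
    rw [← h1]
    rfl
  · intro X' β' ν' hX' hc' hd' h0
    refine K (fun _ _ => 0) X' β' ν' hc' hX' hd' (fun D hD => ?_) fun h => absurd rfl h
    ext1 i
    ext1 y
    show SignType.sign (tb (wT D) (ext s) i y) = 0
    unfold tb
    rw [h0 D hD, div_zero, sign_zero]

/-- The signature of a tableau: the signs of all tableaux which belong to it. -/
noncomputable def chiT (D : Tab m n) :
    (Fin m → Va m n) → Option (Fin m) → Kol (Va m n) → SignType :=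
  fun β => star (wT D) β

/-- A numbering of the variables. -/
def rk (m n : ℕ) : Va m n → ℕ
  | .inl r => r
  | .inr c => m + c

lemma rk_inj : Injective (rk m n) := by
  intro a b h
  rcases a with r | c <;> rcases b with r' | c' <;> simp only [rk] at h
  · rw [Fin.ext h]
  · omega
  · omega
  · have : c = c' := Fin.ext (by omega)
    rw [this]

lemma rk_lt (v : Va m n) : rk m n v < m + n := by
  rcases v with r | c <;> simp only [rk] <;> omega

/-- A terminal sign pattern of a whole tableau. -/
def TermF (ρ : Option (Fin m) → Kol (Va m n) → SignType) : Prop :=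
  ((∀ j, ρ (some j) none ≠ -1) ∧ (∀ k, ρ none (some (some k)) ≠ -1)) ∨
  (∃ i, ρ (some i) none = -1 ∧ ∀ k, ρ (some i) (some (some k)) ≠ -1) ∨
  (∃ k, ρ none (some (some k)) = -1 ∧ ∀ j, ρ (some j) (some (some k)) ≠ 1)

lemma termF_of (β : Fin m → Va m n) (ρ : Option (Fin m) → Kol (Va m n) → SignType)
    (h : Term (rk m n) (m + n) β ρ) : TermF ρ := by
  rcases h with ⟨h1, h2⟩ | ⟨i, -, h1, h2⟩ | ⟨k, -, h1, h2⟩
  · exact Or.inl ⟨fun j => h1 j (rk_lt _), fun k => h2 k (rk_lt _)⟩
  · exact Or.inr (Or.inl ⟨i, h1, fun k => h2 k (rk_lt _)⟩)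
  · exact Or.inr (Or.inr ⟨k, h1, fun j => h2 j (rk_lt _)⟩)

lemma terminal_of {D : Tab m n} (hc : Comp β ν) (hd : dd (wT D) (ext β) ≠ 0)
    {s : Fin m → Va m n} {π : Equiv.Perm (Fin m)} (hπ : s = β ∘ π) (h : TermF (star (wT D) s)) :
    Terminal (signs (cond D β ν)) := by
  have e : ext s = ext β ∘ (Equiv.optionCongr π) := by
    ext1 j
    rcases j with _ | j
    · rfl
    · simp only [Function.comp_apply, Equiv.optionCongr_apply, Option.map_some]
      rw [hπ]
      rfl
  have hst : ∀ i y, star (wT D) s i y =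
      SignType.sign (tb (wT D) (ext β) (Equiv.optionCongr π i) y) := by
    intro i y
    show SignType.sign (tb (wT D) (ext s) i y) = _
    rw [e, tb_perm _ _ _ hd]
  have hs1 : ∀ i y, star (wT D) s (some i) y =
      SignType.sign (tb (wT D) (ext β) (some (π i)) y) := fun i y => by
    rw [hst]
    rfl
  have hs0 : ∀ y, star (wT D) s none y = SignType.sign (tb (wT D) (ext β) none y) := fun y => by
    rw [hst]
    rfl
  rcases h with ⟨h1, h2⟩ | ⟨i, h1, h2⟩ | ⟨k, h1, h2⟩
  · refine Or.inl ⟨fun i => ?_, fun j => ?_⟩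
    · have := h1 (π.symm i)
      rw [hs1, Equiv.apply_symm_apply] at this
      exact this
    · have := h2 (ν j)
      rw [hs0] at this
      exact this
  · refine Or.inr (Or.inl ⟨π i, ?_, fun j => ?_⟩)
    · rw [hs1] at h1
      exact h1
    · have := h2 (ν j)
      rw [hs1] at this
      exact this
  · rw [hs0] at h1
    rcases hc.cov k with ⟨r, hr⟩ | ⟨q, hq⟩
    · exfalso
      have e2 : (some (some k) : Kol (Va m n)) = ext β (some r) := by rw [← hr]; rfl
      rw [e2, tb_self _ _ hd, if_neg (by simp), sign_zero] at h1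
      exact absurd h1 (by decide)
    · refine Or.inr (Or.inr ⟨q, ?_, fun i => ?_⟩)
      · rw [← hq] at h1
        exact h1
      · have := h2 (π.symm i)
        rw [hs1, Equiv.apply_symm_apply, ← hq] at this
        exact this

/-- The halving argument. -/
theorem halve (𝒟 : Set (Tab m n)) (k : ℕ) :
    ∀ Z : Finset ((Fin m → Va m n) → Option (Fin m) → Kol (Va m n) → SignType),
      (∀ ρ ∈ Z, ∃ D ∈ 𝒟, chiT D = ρ) → Z.card * 2 ^ k < 3 ^ k →
      ∀ (X : Set (Tab m n)) (β : Fin m → Va m n) (ν : Fin n → Va m n), Comp β ν → X ⊆ 𝒟 →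
      (∀ D ∈ X, chiT D ∈ Z) → (∀ D ∈ X, dd (wT D) (ext β) ≠ 0) →
      SolR X β ν (k * min m n) := by
  classical
  induction k with
  | zero =>
    intro Z _ hZ X β ν _ _ hXZ _
    have : Z = ∅ := by
      rw [← Finset.card_eq_zero]
      simpa using hZ
    subst this
    exact SolR.empty fun D hD => absurd (hXZ D hD) (by simp)
  | succ k ih =>
    intro Z hZr hZ X β ν hc hX𝒟 hXZ hd
    by_cases hZe : Z = ∅
    · subst hZe
      exact SolR.empty fun D hD => absurd (hXZ D hD) (by simp)
    have hZpos : 0 < Z.card := Finset.card_pos.2 (Finset.nonempty_iff_ne_empty.2 hZe)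
    have hcost : (k + 1) * min m n = k * min m n + min m n := by ring
    rw [hcost]
    have hsmall : ∀ Z' : Finset ((Fin m → Va m n) → Option (Fin m) → Kol (Va m n) → SignType),
        3 * Z'.card ≤ 2 * Z.card → Z'.card * 2 ^ k < 3 ^ k := by
      intro Z' h
      have h2 : 3 * (Z'.card * 2 ^ k) < 3 * 3 ^ k := by
        calc 3 * (Z'.card * 2 ^ k) = (3 * Z'.card) * 2 ^ k := by ring
          _ ≤ (2 * Z.card) * 2 ^ k := Nat.mul_le_mul_right _ h
          _ = Z.card * 2 ^ (k + 1) := by ring
          _ < 3 ^ (k + 1) := hZ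
          _ = 3 * 3 ^ k := by ring
      exact Nat.lt_of_mul_lt_mul_left h2
    by_cases hbal : ∃ s : Fin m → Va m n, ∀ ρ,
        3 * (Z.filter (fun z => z s = ρ)).card ≤ 2 * Z.card
    · obtain ⟨s, hs⟩ := hbal
      have hex : ∃ D : Tab m n, dd (wT D) (ext s) ≠ 0 := by
        by_contra hcon
        push Not at hcon
        have h1 := hs (fun _ _ => 0)
        have h2 : Z.filter (fun z => z s = fun _ _ => 0) = Z := by
          apply Finset.filter_true_of_mem
          intro z hz
          obtain ⟨D, -, rfl⟩ := hZr z hz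
          ext1 i
          ext1 y
          show SignType.sign (tb (wT D) (ext s) i y) = 0
          unfold tb
          rw [hcon D, div_zero, sign_zero]
        rw [h2] at h1
        omega
      obtain ⟨D0, hD0⟩ := hex
      refine round s (inj_of_ext _ s hD0) X β ν hc hd _ fun ρ X' β' ν' hc' hX' hd' hρ _ => ?_
      exact ih (Z.filter (fun z => z s = ρ)) (fun z hz => hZr z (Finset.mem_filter.1 hz).1)
        (hsmall _ (hs ρ)) X' β' ν' hc' (hX'.trans hX𝒟)
        (fun D hD => Finset.mem_filter.2 ⟨hXZ D (hX' hD), hρ D hD⟩) hd'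
    · push Not at hbal
      choose σ hσ using hbal
      have hσ' : ∀ s, 3 * (Z.filter (fun z => z s ≠ σ s)).card < Z.card := by
        intro s
        have h1 := Finset.card_filter_add_card_filter_not (s := Z) (fun z => z s = σ s)
        have h2 := hσ s
        have h3 : (Z.filter (fun z => z s ≠ σ s)).card =
            (Z.filter (fun z => ¬ z s = σ s)).card := rfl
        omega
      have hloc : Loc2 (fun D : Tab m n => wT D) σ := by
        intro β γ
        have hex : ∃ z ∈ Z, z β = σ β ∧ z γ = σ γ := by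
          by_contra hcon
          push Not at hcon
          have hsub : Z ⊆ Z.filter (fun z => z β ≠ σ β) ∪ Z.filter (fun z => z γ ≠ σ γ) := by
            intro z hz
            by_cases hb : z β = σ β
            · exact Finset.mem_union_right _ (Finset.mem_filter.2 ⟨hz, hcon z hz hb⟩)
            · exact Finset.mem_union_left _ (Finset.mem_filter.2 ⟨hz, hb⟩)
          have h1 := (Finset.card_le_card hsub).trans (Finset.card_union_le _ _)
          have h2 := hσ' β
          have h3 := hσ' γ
          omega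
        obtain ⟨z, hz, h1, h2⟩ := hex
        obtain ⟨D, -, rfl⟩ := hZr z hz
        exact ⟨D, h1, h2⟩
      have hb0 : σ (Sum.inl : Fin m → Va m n) none (some none) ≠ 0 := by
        rw [nd_iff hloc]
        obtain ⟨D, hD, -⟩ := hloc Sum.inl Sum.inl
        exact ⟨D, hD, by rw [dd_base]; exact one_ne_zero⟩
      obtain ⟨s, hs, -, hterm⟩ := exists_term (rk := rk m n) rk_inj hloc (m + n)
        (Sum.inl : Fin m → Va m n) hb0
      have hT := termF_of s _ hterm
      refine round s (sig_inj hloc s hs) X β ν hc hd _ fun ρ X' β' ν' hc' hX' hd' hρ hav => ?_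
      by_cases hρs : ρ = σ s
      · subst hρs
        obtain ⟨π, hπ⟩ := hav hs
        refine SolR.halt fun D hD => terminal_of hc' (hd' D hD) hπ ?_
        rw [hρ D hD]
        exact hT
      · refine ih (Z.filter (fun z => z s = ρ)) (fun z hz => hZr z (Finset.mem_filter.1 hz).1)
          (hsmall _ ?_) X' β' ν' hc' (hX'.trans hX𝒟)
          (fun D hD => Finset.mem_filter.2 ⟨hXZ D (hX' hD), hρ D hD⟩) hd'
        have h1 : (Z.filter (fun z => z s = ρ)).card ≤
            (Z.filter (fun z => z s ≠ σ s)).card := by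
          apply Finset.card_le_card
          intro z hz
          rw [Finset.mem_filter] at hz ⊢
          exact ⟨hz.1, by rw [hz.2]; exact hρs⟩
        have h2 := hσ' s
        omega

/-- The number of rounds is linear in the logarithm of the number of signatures. -/
theorem solve_all (𝒟 : Set (Tab m n)) (P : ℕ) (hP : (chiT '' 𝒟).ncard ≤ 2 ^ P) :
    ∃ T : Sgn m n → PT m n, ∀ D ∈ 𝒟, Good (T (signs D)) D ((2 * P + 1) * min m n) := by
  classical
  have hfin : (chiT '' 𝒟).Finite := Set.toFinite _
  have h := halve 𝒟 (2 * P + 1) hfin.toFinset (by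
    intro ρ hρ
    simpa using hρ) ?_ 𝒟 Sum.inl Sum.inr comp_base subset_rfl
    (fun D hD => by
      rw [Set.Finite.mem_toFinset]
      exact Set.mem_image_of_mem _ hD) (fun D _ => by rw [dd_base]; exact one_ne_zero)
  · obtain ⟨T, hT⟩ := h
    refine ⟨T, fun D hD => ?_⟩
    have h1 := hT D hD
    rwa [cond_base] at h1
  rw [← Set.ncard_eq_toFinset_card _ hfin]
  calc (chiT '' 𝒟).ncard * 2 ^ (2 * P + 1) ≤ 2 ^ P * 2 ^ (2 * P + 1) :=
        Nat.mul_le_mul_right _ hP
    _ = 2 * 8 ^ P := by
        have : (8 : ℕ) = 2 ^ 3 := by norm_num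
        rw [this, ← pow_mul, ← pow_add, ← pow_succ']
        congr 1
        ring
    _ < 3 * 9 ^ P := by
        have h1 : 8 ^ P ≤ 9 ^ P := Nat.pow_le_pow_left (by norm_num) P
        have h2 : 0 < 9 ^ P := by positivity
        omega
    _ = 3 ^ (2 * P + 1) := by
        rw [pow_succ, pow_mul]
        norm_num
        ring

end Pool.Agent.V8H40.PR
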